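import Mathlib
import Pool.Agent.H639R3.W.Growth

set_option autoImplicit false

/-!
For every `d ≥ 2` and every exponent `α` with `1/2 < α < 1`, the set of coefficient vectors in
`[0,1)^d` whose Weyl sums have growth exponent exactly `α` has positive Hausdorff dimension.
-/

namespace Pool.Agent.Results.MP_3c4aa6_nt.WeylGrowthSpectrum

open Filter MeasureTheory

/-- The Weyl sum `S_d(x; N) = ∑_{n=1}^N exp(2πi (x_1 n + x_2 n^2 + ... + x_d n^d))`; the coordinate
`x j` (with `j` running over `0, ..., d - 1`) is the coefficient of `n ^ (j + 1)`. -/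
noncomputable def weylSum (d : ℕ) (x : Fin d → ℝ) (N : ℕ) : ℂ :=
  ∑ n ∈ Finset.Icc 1 N,
    Complex.exp (2 * (Real.pi : ℂ) * Complex.I * ((∑ j : Fin d, x j * (n : ℝ) ^ (j.val + 1) : ℝ) : ℂ))

/-- The growth exponent `σ(x)`: the infimum of all `s > 0` with `|S_d(x; N)| = O(N^s)`. -/
noncomputable def growthExponent (d : ℕ) (x : Fin d → ℝ) : ℝ :=
  sInf {s : ℝ | 0 < s ∧
    (fun N : ℕ => ‖weylSum d x N‖) =O[atTop] fun N : ℕ => (N : ℝ) ^ s}

/-- The set `Ω_α` of all `x` in `[0,1)^d` with `σ(x) = α`. -/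
def Omega (d : ℕ) (α : ℝ) : Set (Fin d → ℝ) :=
  {x | (∀ j, 0 ≤ x j ∧ x j < 1) ∧ growthExponent d x = α}

/-- the vectors `(x, ξ, 0, ..., 0)` -/
noncomputable def vec (d : ℕ) (x ξ : ℝ) : Fin d → ℝ :=
  fun j => if j.val = 0 then x else if j.val = 1 then ξ else 0

theorem weylSum_vec (m : ℕ) (x ξ : ℝ) (N : ℕ) :
    weylSum (m + 2) (vec (m + 2) x ξ) N = H639R3.W.qs x ξ N := by
  have hIcc : Finset.Icc 1 N = Finset.Ico 1 (N + 1) := by
    ext n
    simp only [Finset.mem_Icc, Finset.mem_Ico]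
    omega
  have hsum : ∀ n : ℕ, (∑ j : Fin (m + 2), vec (m + 2) x ξ j * (n : ℝ) ^ (j.val + 1)) =
      x * n + ξ * (n : ℝ) ^ 2 := by
    intro n
    rw [Fin.sum_univ_succ, Fin.sum_univ_succ]
    have h0 : (∑ i : Fin m, vec (m + 2) x ξ i.succ.succ *
        (n : ℝ) ^ ((i.succ.succ : Fin (m + 2)).val + 1)) = 0 := by
      apply Finset.sum_eq_zero
      intro i _
      simp [vec]
    rw [h0]
    simp [vec]
  unfold weylSum H639R3.W.qs H639R3.W.e
  rw [hIcc, Finset.sum_Ico_eq_sum_range, Nat.add_sub_cancel]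
  apply Finset.sum_congr rfl
  intro n _
  rw [hsum]
  congr 1
  push_cast
  ring

theorem growthExponent_eq (m : ℕ) (x ξ α : ℝ) (hα : 0 < α)
    (h1 : ∀ s, α < s → (fun N : ℕ => ‖H639R3.W.qs x ξ N‖) =O[atTop] fun N : ℕ => (N : ℝ) ^ s)
    (h2 : ∀ s, s < α → ¬ (fun N : ℕ => ‖H639R3.W.qs x ξ N‖) =O[atTop] fun N : ℕ => (N : ℝ) ^ s) :
    growthExponent (m + 2) (vec (m + 2) x ξ) = α := by
  unfold growthExponent
  simp only [weylSum_vec]
  set S := {s : ℝ | 0 < s ∧
    (fun N : ℕ => ‖H639R3.W.qs x ξ N‖) =O[atTop] fun N : ℕ => (N : ℝ) ^ s} with hS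
  have hlow : ∀ s ∈ S, α ≤ s := by
    intro s hs
    by_contra hcon
    exact h2 s (lt_of_not_ge hcon) hs.2
  have hmem : ∀ s, α < s → s ∈ S := fun s hs => ⟨hα.trans hs, h1 s hs⟩
  apply le_antisymm
  · apply le_of_forall_gt_imp_ge_of_dense
    intro s hs
    exact csInf_le ⟨α, hlow⟩ (hmem s hs)
  · exact le_csInf ⟨α + 1, hmem _ (by linarith)⟩ hlow

/-- **Main result.** For every `d ≥ 2` and every `α` with `1/2 < α < 1`, the set of all `x` in
`[0,1)^d` whose Weyl sums have growth exponent exactly `α` has positive Hausdorff dimension. In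
particular, for every `d ≥ 2` there is a measurable subset of `[0,1]` of positive measure all of
whose elements `α` have this property. -/
theorem result : ∀ d : ℕ, 2 ≤ d →
    (∀ α : ℝ, 1 / 2 < α → α < 1 → 0 < dimH (Omega d α)) ∧
      ∃ A : Set ℝ, A ⊆ Set.Icc 0 1 ∧ MeasurableSet A ∧ 0 < volume A ∧
        ∀ α ∈ A, 0 < dimH (Omega d α) := by
  intro d hd
  have main : ∀ α : ℝ, 1 / 2 < α → α < 1 → 0 < dimH (Omega d α) := by
    intro α hα hα1
    obtain ⟨m, rfl⟩ : ∃ m, d = m + 2 := ⟨d - 2, by omega⟩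
    obtain ⟨x, ξ, C, r, hC, hr, hξ0, hξ1, hhol, hx01, hgt, hlt⟩ :=
      H639R3.W.exists_family α hα hα1
    have hpos := H639R3.W.dimH_pos (fun t => vec (m + 2) (x t) ξ) C r hC hr (by
      intro t ht t' ht'
      refine (hhol t ht t' ht').trans ?_
      apply mul_le_mul_of_nonneg_left _ hC.le
      apply Real.rpow_le_rpow (abs_nonneg _) _ hr.le
      have h3 := dist_le_pi_dist (vec (m + 2) (x t) ξ) (vec (m + 2) (x t') ξ) 0
      simpa [vec, Real.dist_eq] using h3)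
    refine lt_of_lt_of_le hpos (dimH_mono ?_)
    rintro _ ⟨t, ht, rfl⟩
    refine ⟨?_, growthExponent_eq m (x t) ξ α (by linarith) (hgt t) (hlt t)⟩
    intro j
    simp only [vec]
    split_ifs
    · exact hx01 t
    · exact ⟨hξ0, hξ1⟩
    · exact ⟨le_rfl, one_pos⟩
  refine ⟨main, Set.Ioo (1 / 2) 1, ?_, measurableSet_Ioo, ?_, ?_⟩
  · intro α hα
    exact ⟨by linarith [hα.1], hα.2.le⟩
  · rw [Real.volume_Ioo]
    simp only [ENNReal.ofReal_pos]
    norm_num
  · intro α hα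
    exact main α hα.1 hα.2

end Pool.Agent.Results.MP_3c4aa6_nt.WeylGrowthSpectrum
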